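import Pool.Agent.H47R3.WT.Final

/-!
The derivative of every continuous root of a monic polynomial of degree `n` whose coefficients are
of class `C^{n-1,1}` on a bounded interval lies in the weak Lebesgue space with exponent
`n / (n - 1)`, with a bound of the same form as the known bounds for smaller exponents.
-/

set_option autoImplicit false

namespace Pool.Agent.Results.MP_6562b9_an.WeakType

open Set MeasureTheory Pool.Agent.H47R3.WT
open scoped ENNReal NNReal

/-- `f ∈ C^{k,1}([α,β])`: `f` is `k` times continuously differentiable on `[α,β]` and its `k`-th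
derivative is Lipschitz on `[α,β]`. -/
def HolderClass (k : ℕ) (α β : ℝ) (f : ℝ → ℂ) : Prop :=
  ContDiffOn ℝ k f (Icc α β) ∧
    ∃ K : ℝ≥0, LipschitzOnWith K (iteratedDerivWithin k f (Icc α β)) (Icc α β)

/-- The norm of `C^{k,1}([α,β])`, as an element of `[0,∞]`: the maximum of the sup norms of the
derivatives of order at most `k` and of the Lipschitz constant of the `k`-th derivative. -/
noncomputable def holderNorm (k : ℕ) (α β : ℝ) (f : ℝ → ℂ) : ℝ≥0∞ :=
  max (⨆ i ∈ Finset.range (k + 1), ⨆ t ∈ Icc α β, ‖iteratedDerivWithin i f (Icc α β) t‖ₑ)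
    (⨆ x ∈ Icc α β, ⨆ y ∈ Icc α β,
      ‖iteratedDerivWithin k f (Icc α β) x - iteratedDerivWithin k f (Icc α β) y‖ₑ / ‖x - y‖ₑ)

/-- The weak Lebesgue quasinorm with exponent `p` on `I`, as an element of `[0,∞]`. -/
noncomputable def weakNorm (p : ℝ) (I : Set ℝ) (f : ℝ → ℂ) : ℝ≥0∞ :=
  ⨆ s : ℝ, ⨆ _ : 0 < s, ENNReal.ofReal s * volume {t | t ∈ I ∧ s < ‖f t‖} ^ (1 / p)

lemma holderNorm_lt_top {k : ℕ} {α β : ℝ} (hαβ : α < β) {f : ℝ → ℂ}
    (hf : HolderClass k α β f) : holderNorm k α β f < ∞ := by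
  obtain ⟨h1, K, hK⟩ := hf
  have hS : UniqueDiffOn ℝ (Icc α β) := uniqueDiffOn_Icc hαβ
  rw [contDiffOn_nat_iff_continuousOn_differentiableOn_deriv hS] at h1
  have hB : ∀ i : ℕ, ∃ B : ℝ, i ∈ Finset.range (k + 1) → ∀ t ∈ Icc α β,
      ‖iteratedDerivWithin i f (Icc α β) t‖ ≤ B := by
    intro i
    by_cases hi : i ∈ Finset.range (k + 1)
    · obtain ⟨B, hB⟩ := isCompact_Icc.exists_bound_of_continuousOn
        (h1.1 i (by rw [Finset.mem_range] at hi; omega))
      exact ⟨B, fun _ => hB⟩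
    · exact ⟨0, fun h => absurd h hi⟩
  choose B hB using hB
  unfold holderNorm
  apply max_lt
  · refine lt_of_le_of_lt (iSup₂_le (fun i hi => ?_))
      (ENNReal.sum_lt_top.2 (fun i (_ : i ∈ Finset.range (k + 1)) =>
        (ENNReal.ofReal_lt_top (r := B i))))
    refine le_trans (iSup₂_le (fun t ht => ?_)) (Finset.single_le_sum
      (f := fun i => ENNReal.ofReal (B i)) (fun _ _ => zero_le) hi)
    rw [← ofReal_norm]
    exact ENNReal.ofReal_le_ofReal (hB i hi t ht)
  · refine lt_of_le_of_lt (iSup₂_le (fun x hx => iSup₂_le (fun y hy => ?_)))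
      (ENNReal.coe_lt_top (r := K))
    apply ENNReal.div_le_of_le_mul
    have := hK hx hy
    rwa [edist_eq_enorm_sub, edist_eq_enorm_sub] at this

/-- The derivative of every continuous root is in weak `L^{n/(n-1)}`, with an explicit bound. -/
theorem result : ∀ n : ℕ, 2 ≤ n → ∃ C : ℝ≥0, ∀ α β : ℝ, α < β → ∀ a : ℕ → ℝ → ℂ,
    (∀ j ∈ Finset.Icc 1 n, HolderClass (n - 1) α β (a j)) →
    ∀ lam : ℝ → ℂ, ContinuousOn lam (Ioo α β) →
    (∀ t ∈ Ioo α β, lam t ^ n + ∑ j ∈ Finset.Icc 1 n, a j t * lam t ^ (n - j) = 0) →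
    weakNorm ((n:ℝ) / ((n:ℝ) - 1)) (Ioo α β) (deriv lam) < ∞ ∧
    weakNorm ((n:ℝ) / ((n:ℝ) - 1)) (Ioo α β) (deriv lam) ≤
      C * max 1 (ENNReal.ofReal (β - α) ^ (((n:ℝ) - 1) / n)) *
        ⨆ j ∈ Finset.Icc 1 n, holderNorm (n - 1) α β (a j) ^ (1 / (j:ℝ)) := by
  intro n hn
  obtain ⟨C0, hC00, hC0⟩ := long_bound hn
  have hn' : (2:ℝ) ≤ n := by exact_mod_cast hn
  set p : ℝ := (n:ℝ) / ((n:ℝ) - 1) with hp
  set θ : ℝ := ((n:ℝ) - 1) / n with hθ
  have hn1 : (0:ℝ) < (n:ℝ) - 1 := by linarith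
  have hn0 : (0:ℝ) < n := by linarith
  have hθ0 : 0 < θ := div_pos hn1 hn0
  have hpθ : 1 / p = θ := by
    rw [hp, hθ, one_div_div]
  have hpθ' : p * θ = 1 := by
    rw [hp, hθ]
    field_simp
  refine ⟨Real.toNNReal (C0 ^ θ), ?_⟩
  intro α β hαβ a ha lam hlam hroot
  set R0 : ℝ≥0∞ := ⨆ j ∈ Finset.Icc 1 n, holderNorm (n - 1) α β (a j) ^ (1 / (j:ℝ)) with hR0
  set l : ℝ := β - α with hl
  have hl0 : 0 < l := by linarith
  have hR0top : R0 < ∞ := by
    have h1 : ∑ j ∈ Finset.Icc 1 n, holderNorm (n - 1) α β (a j) ^ (1 / (j:ℝ)) < ∞ := by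
      rw [ENNReal.sum_lt_top]
      intro j hj
      exact ENNReal.rpow_lt_top_of_nonneg (by positivity) (holderNorm_lt_top hαβ (ha j hj)).ne
    refine lt_of_le_of_lt (iSup₂_le (fun j hj => ?_)) h1
    exact Finset.single_le_sum (f := fun j : ℕ => holderNorm (n - 1) α β (a j) ^ (1 / (j:ℝ)))
      (fun _ _ => zero_le) hj
  have hS : UniqueDiffOn ℝ (Icc α β) := uniqueDiffOn_Icc hαβ
  -- the estimate with a real number `R`
  have key : ∀ R : ℝ, 0 < R → (∀ j ∈ Finset.Icc 1 n, holderNorm (n - 1) α β (a j) ≤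
      ENNReal.ofReal (R ^ j)) →
      weakNorm p (Ioo α β) (deriv lam) ≤ ENNReal.ofReal (C0 ^ θ * max 1 (l ^ θ) * R) := by
    intro R hR hnorm
    have hwt : ∀ i : Fin n, n - (i:ℕ) ∈ Finset.Icc 1 n := by
      intro i
      rw [Finset.mem_Icc]
      have := i.2
      omega
    have hmain := hC0 α β R hαβ hR (fun i m => iteratedDerivWithin m (a (n - (i:ℕ))) (Icc α β))
      ?_ ?_ ?_ lam hlam ?_
    · unfold weakNorm
      refine iSup₂_le (fun s hs => ?_)
      rw [hpθ]
      have h1 : volume {t | t ∈ Ioo α β ∧ s < ‖deriv lam t‖} ^ θ ≤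
          ENNReal.ofReal (max 1 l * (C0 * (s / R) ^ (-p))) ^ θ :=
        ENNReal.rpow_le_rpow (hmain s hs) hθ0.le
      refine (mul_le_mul_right h1 _).trans ?_
      rw [ENNReal.ofReal_rpow_of_nonneg (by positivity) hθ0.le, ← ENNReal.ofReal_mul hs.le]
      apply ENNReal.ofReal_le_ofReal
      apply le_of_eq
      have hsR : 0 < s / R := by positivity
      have h2 : ((s / R) ^ (-p)) ^ θ = R / s := by
        rw [← Real.rpow_mul hsR.le, neg_mul, hpθ', Real.rpow_neg hsR.le, Real.rpow_one, inv_div]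
      have h3 : (max 1 l) ^ θ = max 1 (l ^ θ) := by
        rcases le_total 1 l with h | h
        · rw [max_eq_right h, max_eq_right (Real.one_le_rpow h hθ0.le)]
        · rw [max_eq_left h, max_eq_left (Real.rpow_le_one hl0.le h hθ0.le), Real.one_rpow]
      rw [Real.mul_rpow (by positivity) (by positivity), Real.mul_rpow hC00 (by positivity), h2, h3]
      field_simp
    · intro i m hm x hx
      have h1 := (ha _ (hwt i)).1
      rw [contDiffOn_nat_iff_continuousOn_differentiableOn_deriv hS] at h1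
      have h2 := (h1.2 m hm x hx).hasDerivWithinAt
      rw [iteratedDerivWithin_succ]
      exact h2
    · intro i m hm x hx
      have h1 := hnorm _ (hwt i)
      have h2 : ‖iteratedDerivWithin m (a (n - (i:ℕ))) (Icc α β) x‖ₑ ≤
          holderNorm (n - 1) α β (a (n - (i:ℕ))) := by
        refine le_trans ?_ (le_max_left _ _)
        refine le_trans ?_ (le_iSup₂ (f := fun (m : ℕ) (_ : m ∈ Finset.range (n - 1 + 1)) =>
          ⨆ t ∈ Icc α β, ‖iteratedDerivWithin m (a (n - (i:ℕ))) (Icc α β) t‖ₑ) m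
          (Finset.mem_range.2 (by omega)))
        exact le_iSup₂ (f := fun (t : ℝ) (_ : t ∈ Icc α β) =>
          ‖iteratedDerivWithin m (a (n - (i:ℕ))) (Icc α β) t‖ₑ) x hx
      have h3 := h2.trans h1
      rw [← ofReal_norm, ENNReal.ofReal_le_ofReal_iff (by positivity)] at h3
      exact h3
    · intro i x hx y hy
      rcases eq_or_ne x y with rfl | hxy
      · simp
      · have h1 := hnorm _ (hwt i)
        have h2 : ‖iteratedDerivWithin (n - 1) (a (n - (i:ℕ))) (Icc α β) x -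
            iteratedDerivWithin (n - 1) (a (n - (i:ℕ))) (Icc α β) y‖ₑ / ‖x - y‖ₑ ≤
            holderNorm (n - 1) α β (a (n - (i:ℕ))) := by
          refine le_trans ?_ (le_max_right _ _)
          refine le_trans ?_ (le_iSup₂ (f := fun (x : ℝ) (_ : x ∈ Icc α β) =>
            ⨆ y ∈ Icc α β, ‖iteratedDerivWithin (n - 1) (a (n - (i:ℕ))) (Icc α β) x -
              iteratedDerivWithin (n - 1) (a (n - (i:ℕ))) (Icc α β) y‖ₑ / ‖x - y‖ₑ) x hx)
          exact le_iSup₂ (f := fun (y : ℝ) (_ : y ∈ Icc α β) =>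
            ‖iteratedDerivWithin (n - 1) (a (n - (i:ℕ))) (Icc α β) x -
              iteratedDerivWithin (n - 1) (a (n - (i:ℕ))) (Icc α β) y‖ₑ / ‖x - y‖ₑ) y hy
        have h3 := h2.trans h1
        have h4 : ‖x - y‖ₑ ≠ 0 := by
          rw [enorm_ne_zero]
          exact sub_ne_zero.2 hxy
        rw [ENNReal.div_le_iff h4 enorm_ne_top, ← ofReal_norm, ← ofReal_norm,
          ← ENNReal.ofReal_mul (by positivity), ENNReal.ofReal_le_ofReal_iff (by positivity),
          Real.norm_eq_abs] at h3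
        exact h3
    · intro t ht
      rw [mk_eval, ← hroot t ht]
      congr 1
      rw [Fin.sum_univ_eq_sum_range (fun i => iteratedDerivWithin 0 (a (n - i)) (Icc α β) t *
        lam t ^ i) n]
      apply Finset.sum_nbij' (fun i => n - i) (fun j => n - j)
      · intro i hi
        rw [Finset.mem_range] at hi
        rw [Finset.mem_Icc]
        omega
      · intro j hj
        rw [Finset.mem_Icc] at hj
        rw [Finset.mem_range]
        omega
      · intro i hi
        rw [Finset.mem_range] at hi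
        omega
      · intro j hj
        rw [Finset.mem_Icc] at hj
        omega
      · intro i hi
        rw [Finset.mem_range] at hi
        rw [iteratedDerivWithin_zero, Nat.sub_sub_self hi.le]
  -- let `R` decrease to `R0`
  have hlim : weakNorm p (Ioo α β) (deriv lam) ≤
      ENNReal.ofReal (C0 ^ θ * max 1 (l ^ θ) * R0.toReal) := by
    have h1 : Filter.Tendsto (fun ε : ℝ => ENNReal.ofReal (C0 ^ θ * max 1 (l ^ θ) *
        (R0.toReal + ε))) (nhdsWithin 0 (Ioi 0))
        (nhds (ENNReal.ofReal (C0 ^ θ * max 1 (l ^ θ) * (R0.toReal + 0)))) := by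
      apply Filter.Tendsto.mono_left _ nhdsWithin_le_nhds
      exact (ENNReal.continuous_ofReal.comp (by fun_prop)).tendsto 0
    rw [add_zero] at h1
    refine ge_of_tendsto h1 ?_
    filter_upwards [self_mem_nhdsWithin] with ε hε
    have hε' : 0 < ε := hε
    have hR : 0 < R0.toReal + ε := by positivity
    apply key _ hR
    intro j hj
    have hj1 : 1 ≤ j := (Finset.mem_Icc.1 hj).1
    have hj0 : (0:ℝ) < j := by exact_mod_cast hj1
    have h2 : holderNorm (n - 1) α β (a j) ^ (1 / (j:ℝ)) ≤ ENNReal.ofReal (R0.toReal + ε) := by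
      refine le_trans (le_iSup₂ (f := fun (j : ℕ) (_ : j ∈ Finset.Icc 1 n) =>
        holderNorm (n - 1) α β (a j) ^ (1 / (j:ℝ))) j hj) ?_
      rw [← hR0, ← ENNReal.ofReal_toReal hR0top.ne]
      apply ENNReal.ofReal_le_ofReal
      rw [ENNReal.toReal_ofReal ENNReal.toReal_nonneg]
      linarith
    have h3 := ENNReal.rpow_le_rpow h2 hj0.le
    rw [← ENNReal.rpow_mul, one_div_mul_cancel hj0.ne', ENNReal.rpow_one,
      ENNReal.rpow_natCast, ← ENNReal.ofReal_pow hR.le] at h3
    exact h3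
  have hfinal : ENNReal.ofReal (C0 ^ θ * max 1 (l ^ θ) * R0.toReal) =
      (Real.toNNReal (C0 ^ θ) : ℝ≥0∞) * max 1 (ENNReal.ofReal l ^ θ) * R0 := by
    rw [ENNReal.ofReal_mul (by positivity), ENNReal.ofReal_mul (by positivity),
      ENNReal.ofReal_toReal hR0top.ne, ENNReal.ofReal_mono.map_max, ENNReal.ofReal_one,
      ENNReal.ofReal_rpow_of_pos hl0]
    rfl
  refine ⟨hlim.trans_lt ENNReal.ofReal_lt_top, ?_⟩
  rw [← hfinal]
  exact hlim

end Pool.Agent.Results.MP_6562b9_an.WeakType
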